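import Pool.Agent.Lib.helper15.Fdc2

set_option autoImplicit false

open Pool.Agent.Lib.helper15 Set

universe u

namespace Pool.Agent.Results.MP_5e2b9f_al.Counter

def FiniteDoubleCentralizers (S : Type) [Semigroup S] : Prop :=
  ∀ F : Set S, F.Finite → F.centralizer.centralizer.Finite

/-- `supp` is a support map making `S` supp-perfect. -/
structure SuppPerfect {S : Type} [Semigroup S] {X : Type u} (supp : S → Set X) : Prop where
  mul : ∀ f g, supp (f * g) ⊆ supp f ∪ supp g
  comm : ∀ f g, supp f ∩ supp g = ∅ → f * g = g * f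
  fin : ∀ f, (supp f).Finite
  finS : ∀ F ⊆ ⋃ f, supp f, F.Finite → {f | supp f ⊆ F}.Finite
  cent : ∀ F ⊆ ⋃ f, supp f, F.Finite →
    {f | supp f ⊆ F} = Set.centralizer {f | supp f ⊆ (⋃ f, supp f) \ F}

theorem result : ∃ (G : Type) (_ : Group G), FiniteDoubleCentralizers G ∧
    ∀ (X : Type u) (supp : G → Set X), ¬SuppPerfect supp := by
  obtain ⟨G, _, I, _, x, hx, h1, h2, -⟩ := Fdc.exists_group
  refine ⟨G, inferInstance, h1, fun X supp h => ?_⟩
  have : Infinite G := .of_injective x hx
  have step : ∀ F : {F : Set X // F ⊆ ⋃ f, supp f ∧ F.Finite}, ∃ u ≠ 1, Disjoint (supp u) F.1 := by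
    rintro ⟨F, a, b⟩
    by_contra c
    push Not at c
    refine infinite_univ ((h.finS F a b).subset fun g _ => ?_)
    rw [h.cent F a b]
    intro u hu
    have : u = 1 := by_contra fun d => c u d (disjoint_left.2 fun p hp => (hu hp).2)
    simp [this]
  choose u hu using step
  let F : ℕ → {F : Set X // F ⊆ ⋃ f, supp f ∧ F.Finite} := fun n => n.rec ⟨∅, by simp⟩
    fun _ F => ⟨F.1 ∪ supp (u F), union_subset F.2.1 (subset_iUnion _ _), F.2.2.union (h.fin _)⟩
  have mono : Monotone fun n => (F n).1 := monotone_nat_of_le_succ fun n => subset_union_left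
  obtain ⟨i, hi⟩ : ∃ i, ∀ n, u (F n) * x i ≠ x i * u (F n) := by_contra fun c =>
    not_countable_univ ((countable_iUnion fun n => h2 (u (F n)) (u (F n)) (hu _).1).mono
      fun i _ => by simpa using not_exists.1 c i)
  choose p hp using fun n => nonempty_iff_ne_empty.2 (mt (h.comm _ _) (hi n))
  have k : ∀ m n, m < n → p m ≠ p n := fun m n a e =>
    disjoint_left.1 (hu (F n)).2 (hp n).1 (mono (Nat.succ_le_of_lt a) (.inr (e ▸ (hp m).1)))
  exact infinite_of_injective_forall_mem (Function.Injective.of_lt_imp_ne k) (fun n => (hp n).2) (h.fin _)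

end Pool.Agent.Results.MP_5e2b9f_al.Counter
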